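import Pool.Agent.W164.MO.Defs

/-!
Project MO (helper164), task MO-CLa: counting with reduced fractions.
-/

set_option autoImplicit false

namespace Pool.Agent.W638.MO

open Finset

theorem card_le_len (G : Finset ℕ) (u l : ℝ) (hu : 0 ≤ u) (hl : 0 ≤ l)
    (h : ∀ g ∈ G, u ≤ (g : ℝ) ∧ (g : ℝ) < u + l) : (G.card : ℝ) ≤ l + 1 := by
  have h1 : G ⊆ Ico ⌈u⌉₊ ⌈u + l⌉₊ := by
    intro g hg
    obtain ⟨h2, h3⟩ := h g hg
    rw [mem_Ico]
    exact ⟨Nat.ceil_le.2 h2, Nat.lt_ceil.2 h3⟩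
  have h2 := Finset.card_le_card h1
  rw [Nat.card_Ico] at h2
  have h3 : ⌈u⌉₊ ≤ ⌈u + l⌉₊ := Nat.ceil_le_ceil (by linarith)
  have h4 := Nat.ceil_lt_add_one (show 0 ≤ u + l by linarith)
  have h5 := Nat.le_ceil u
  have h6 : ((⌈u + l⌉₊ - ⌈u⌉₊ : ℕ) : ℝ) = (⌈u + l⌉₊ : ℝ) - ⌈u⌉₊ := by
    rw [Nat.cast_sub h3]
  have h7 : (G.card : ℝ) ≤ ((⌈u + l⌉₊ - ⌈u⌉₊ : ℕ) : ℝ) := by exact_mod_cast h2
  linarith

theorem card_frac (F : Finset (ℕ × ℕ)) (B : ℕ) (lo W : ℝ) (hW : 0 ≤ W)
    (h : ∀ f ∈ F, Nat.Coprime f.1 f.2 ∧ 1 ≤ f.2 ∧ f.2 < B ∧ lo ≤ (f.1 : ℝ) / f.2 ∧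
      (f.1 : ℝ) / f.2 ≤ lo + W) : (F.card : ℝ) ≤ 1 + W * (B : ℝ) ^ 2 := by
  set φ : ℕ × ℕ → ℕ := fun f => ⌊((f.1 : ℝ) / f.2 - lo) * (B : ℝ) ^ 2⌋₊ with hφ
  have hinj : Set.InjOn φ (F : Set (ℕ × ℕ)) := by
    intro f hf f' hf' he
    obtain ⟨a1, a2, a3, a4, a5⟩ := h f hf
    obtain ⟨b1, b2, b3, b4, b5⟩ := h f' hf'
    have ha : (0 : ℝ) < f.2 := by exact_mod_cast a2
    have hb : (0 : ℝ) < f'.2 := by exact_mod_cast b2
    have hB : (0 : ℝ) < B := by
      have : 0 < B := by omega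
      exact_mod_cast this
    have e1 := Nat.floor_le (show 0 ≤ ((f.1 : ℝ) / f.2 - lo) * (B : ℝ) ^ 2 from
      mul_nonneg (by linarith) (by positivity))
    have e2 := Nat.lt_floor_add_one (((f.1 : ℝ) / f.2 - lo) * (B : ℝ) ^ 2)
    have e3 := Nat.floor_le (show 0 ≤ ((f'.1 : ℝ) / f'.2 - lo) * (B : ℝ) ^ 2 from
      mul_nonneg (by linarith) (by positivity))
    have e4 := Nat.lt_floor_add_one (((f'.1 : ℝ) / f'.2 - lo) * (B : ℝ) ^ 2)
    have he' : ⌊((f.1 : ℝ) / f.2 - lo) * (B : ℝ) ^ 2⌋₊ =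
        ⌊((f'.1 : ℝ) / f'.2 - lo) * (B : ℝ) ^ 2⌋₊ := he
    rw [he'] at e1 e2
    have e5 : |((f.1 : ℝ) / f.2 - (f'.1 : ℝ) / f'.2) * (B : ℝ) ^ 2| < 1 := by
      rw [abs_lt]
      constructor <;> nlinarith
    have e6 : (f.1 : ℤ) * f'.2 = f'.1 * f.2 := by
      by_contra hne
      have e7 : (1 : ℤ) ≤ |(f.1 : ℤ) * f'.2 - f'.1 * f.2| := Int.one_le_abs (sub_ne_zero.2 hne)
      have e8 : (1 : ℝ) ≤ |(f.1 : ℝ) * f'.2 - f'.1 * f.2| := by exact_mod_cast e7
      have e9 : ((f.1 : ℝ) / f.2 - (f'.1 : ℝ) / f'.2) = ((f.1 : ℝ) * f'.2 - f'.1 * f.2) /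
          (f.2 * f'.2) := by
        field_simp
      rw [e9, abs_mul, abs_div, abs_of_pos (by positivity : (0 : ℝ) < (f.2 : ℝ) * f'.2),
        abs_of_pos (by positivity : (0 : ℝ) < (B : ℝ) ^ 2), div_mul_eq_mul_div,
        div_lt_one (by positivity)] at e5
      have e10 : (f.2 : ℝ) * f'.2 ≤ (B : ℝ) ^ 2 := by
        rw [sq]
        have i1 : (f.2 : ℝ) ≤ B := by exact_mod_cast a3.le
        have i2 : (f'.2 : ℝ) ≤ B := by exact_mod_cast b3.le
        exact mul_le_mul i1 i2 hb.le hB.le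
      nlinarith [sq_nonneg (B : ℝ)]
    have e7 : f.1 * f'.2 = f'.1 * f.2 := by exact_mod_cast e6
    have e8 : f.2 ∣ f'.2 := by
      have : f.2 ∣ f.1 * f'.2 := by rw [e7]; exact dvd_mul_left _ _
      exact (Nat.Coprime.dvd_of_dvd_mul_left a1.symm this)
    have e9 : f'.2 ∣ f.2 := by
      have : f'.2 ∣ f'.1 * f.2 := by rw [← e7]; exact dvd_mul_left _ _
      exact (Nat.Coprime.dvd_of_dvd_mul_left b1.symm this)
    have e10 := Nat.dvd_antisymm e8 e9
    rw [e10] at e7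
    have e11 : f.1 = f'.1 := Nat.eq_of_mul_eq_mul_right (by omega) e7
    exact Prod.ext e11 e10
  have h1 : F.card = (F.image φ).card := (Finset.card_image_of_injOn hinj).symm
  have h2 : F.image φ ⊆ range (⌊W * (B : ℝ) ^ 2⌋₊ + 1) := by
    intro v hv
    rw [mem_image] at hv
    obtain ⟨f, hf, rfl⟩ := hv
    obtain ⟨a1, a2, a3, a4, a5⟩ := h f hf
    rw [mem_range, Nat.lt_add_one_iff]
    apply Nat.floor_le_floor
    exact mul_le_mul_of_nonneg_right (by linarith) (by positivity)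
  have h3 := Finset.card_le_card h2
  rw [card_range, ← h1] at h3
  have h4 := Nat.floor_le (show 0 ≤ W * (B : ℝ) ^ 2 by positivity)
  have h5 : (F.card : ℝ) ≤ (⌊W * (B : ℝ) ^ 2⌋₊ : ℝ) + 1 := by exact_mod_cast h3
  linarith

theorem cla : Pool.Agent.W164.MO.S_CLa := by
  classical
  intro x L y L' I Q m T N hx hy hQ hm hT hN hg hmin hI
  have hxR : (1 : ℝ) ≤ x := by exact_mod_cast hx
  have hyR : (1 : ℝ) ≤ y := by exact_mod_cast hy
  have hLR : (0 : ℝ) ≤ L := Nat.cast_nonneg _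
  have hLR' : (0 : ℝ) ≤ L' := Nat.cast_nonneg _
  set g : ℕ → ℕ := fun n => Nat.gcd n (N n) with hgdef
  set a : ℕ → ℕ := fun n => n / g n with hadef
  set b : ℕ → ℕ := fun n => N n / g n with hbdef
  set W : ℝ := ((x + L : ℕ) : ℝ) / y - (x : ℝ) / (y + L' : ℕ) with hWdef
  set r : ℝ := min (L' : ℝ) (L * (y + L' : ℕ) / x) with hrdef
  have hr0 : 0 ≤ r := by
    rw [hrdef]
    exact le_min hLR' (by positivity)
  have hW0 : 0 ≤ W := by
    rw [hWdef, sub_nonneg]
    push_cast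
    apply div_le_div₀ (by linarith) (by linarith) (by linarith) (by linarith)
  -- basic facts
  have hfacts : ∀ n ∈ T, 0 < g n ∧ n = g n * a n ∧ N n = g n * b n ∧ Nat.Coprime (a n) (b n) ∧
      1 ≤ a n ∧ 1 ≤ b n ∧ (x : ℝ) ≤ n ∧ (n : ℝ) < x + L ∧ (y : ℝ) ≤ N n ∧ (N n : ℝ) < y + L' := by
    intro n hn
    have h1 := mem_Ico.1 (hT hn)
    have h2 := mem_Ico.1 (hN n hn)
    have hn0 : 0 < n := by omega
    have hN0 : 0 < N n := by omega
    have hg0 : 0 < g n := Nat.gcd_pos_of_pos_left _ hn0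
    have e1 : n = g n * a n := (Nat.mul_div_cancel' (Nat.gcd_dvd_left n (N n))).symm
    have e2 : N n = g n * b n := (Nat.mul_div_cancel' (Nat.gcd_dvd_right n (N n))).symm
    refine ⟨hg0, e1, e2, Nat.coprime_div_gcd_div_gcd hg0, ?_, ?_, ?_, ?_, ?_, ?_⟩
    · rw [Nat.one_le_iff_ne_zero]
      intro h
      rw [h, mul_zero] at e1
      omega
    · rw [Nat.one_le_iff_ne_zero]
      intro h
      rw [h, mul_zero] at e2
      omega
    · exact_mod_cast h1.1
    · exact_mod_cast h1.2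
    · exact_mod_cast h2.1
    · exact_mod_cast h2.2
  have hlog : ∀ n ∈ T, Nat.log 2 (b n) ∈ range (I + 1) := by
    intro n hn
    obtain ⟨hg0, e1, e2, hc, ha1, hb1, -, -, -, hN2⟩ := hfacts n hn
    rw [mem_range]
    apply Nat.log_lt_of_lt_pow (by omega)
    have h1 : Q ≤ (g n : ℝ) := hg n hn
    have h2 : (N n : ℝ) = (g n : ℝ) * b n := by exact_mod_cast e2
    have h3 : (b n : ℝ) < 2 ^ (I + 1) := by
      by_contra hcon
      rw [not_lt] at hcon
      have h4 : Q * 2 ^ (I + 1) ≤ (g n : ℝ) * b n :=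
        mul_le_mul h1 hcon (by positivity) (by positivity)
      push_cast at hI
      linarith
    exact_mod_cast h3
  -- one dyadic range
  have hone : ∀ i ∈ range (I + 1), ((T.filter (fun n => Nat.log 2 (b n) = i)).card : ℝ) ≤
      (1 + m) + W * (4 : ℝ) ^ (i + 1) * (1 + r / 2 ^ i) := by
    intro i _
    set Ti := T.filter (fun n => Nat.log 2 (b n) = i) with hTi
    set pr : ℕ → ℕ × ℕ := fun n => (a n, b n) with hpr
    have hTif : ∀ n ∈ Ti, n ∈ T ∧ 2 ^ i ≤ b n ∧ b n < 2 ^ (i + 1) := by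
      intro n hn
      rw [hTi, mem_filter] at hn
      obtain ⟨-, -, -, -, -, hb1, -⟩ := hfacts n hn.1
      have := (Nat.log_eq_iff (Or.inr ⟨by norm_num, by omega⟩)).1 hn.2
      exact ⟨hn.1, this⟩
    have hF : ((Ti.image pr).card : ℝ) ≤ 1 + W * (4 : ℝ) ^ (i + 1) := by
      have h1 := card_frac (Ti.image pr) (2 ^ (i + 1)) ((x : ℝ) / (y + L' : ℕ)) W hW0 (by
        intro f hf
        rw [mem_image] at hf
        obtain ⟨n, hn, rfl⟩ := hf
        obtain ⟨hnT, hb2, hb3⟩ := hTif n hn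
        obtain ⟨hg0, e1, e2, hc, ha1, hb1, c1, c2, c3, c4⟩ := hfacts n hnT
        have hgR : (0 : ℝ) < g n := by exact_mod_cast hg0
        have hbR : (0 : ℝ) < b n := by exact_mod_cast hb1
        have e1R : (n : ℝ) = g n * a n := by exact_mod_cast e1
        have e2R : (N n : ℝ) = g n * b n := by exact_mod_cast e2
        have hfr : (a n : ℝ) / b n = (n : ℝ) / N n := by
          rw [e1R, e2R]
          field_simp
        refine ⟨hc, hb1, hb3, ?_, ?_⟩
        · show (x : ℝ) / (y + L' : ℕ) ≤ (a n : ℝ) / b n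
          rw [hfr]
          push_cast
          apply div_le_div₀ (by linarith) c1 (by linarith) c4.le
        · show (a n : ℝ) / b n ≤ _
          rw [hfr, hWdef]
          have : (n : ℝ) / N n ≤ ((x + L : ℕ) : ℝ) / y := by
            push_cast
            apply div_le_div₀ (by linarith) c2.le (by linarith) c3
          linarith)
      refine h1.trans (le_of_eq ?_)
      push_cast
      rw [← pow_mul, mul_comm (i + 1) 2, pow_mul]
      norm_num
    have hfib : ∀ f ∈ Ti.image pr, (((Ti.filter (fun n => pr n = f)).card : ℕ) : ℝ) ≤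
        1 + min m (r / 2 ^ i) := by
      intro f hf
      rw [mem_image] at hf
      obtain ⟨n₀, hn₀, rfl⟩ := hf
      obtain ⟨hn₀T, hb2, hb3⟩ := hTif n₀ hn₀
      obtain ⟨hg0, e1, e2, hc, ha1, hb1, c1, c2, c3, c4⟩ := hfacts n₀ hn₀T
      have haR : (0 : ℝ) < a n₀ := by exact_mod_cast ha1
      have hbR : (0 : ℝ) < b n₀ := by exact_mod_cast hb1
      set U := Ti.filter (fun n => pr n = pr n₀) with hU
      have hUf : ∀ n ∈ U, n ∈ T ∧ a n = a n₀ ∧ b n = b n₀ := by
        intro n hn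
        rw [hU, mem_filter] at hn
        have h1 := hn.2
        simp only [hpr, Prod.mk.injEq] at h1
        exact ⟨(hTif n hn.1).1, h1⟩
      have hinj : Set.InjOn g (U : Set ℕ) := by
        intro n hn n' hn' he
        obtain ⟨h1, h2, h3⟩ := hUf n hn
        obtain ⟨h1', h2', h3'⟩ := hUf n' hn'
        rw [(hfacts n h1).2.1, (hfacts n' h1').2.1, he, h2, h2']
      have hcard : U.card = (U.image g).card := (Finset.card_image_of_injOn hinj).symm
      have k1 : ((U.image g).card : ℝ) ≤ (L : ℝ) / a n₀ + 1 := by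
        apply card_le_len _ ((x : ℝ) / a n₀) _ (by positivity) (by positivity)
        intro v hv
        rw [mem_image] at hv
        obtain ⟨n, hn, rfl⟩ := hv
        obtain ⟨h1, h2, h3⟩ := hUf n hn
        obtain ⟨-, f1, f2, -, -, -, d1, d2, d3, d4⟩ := hfacts n h1
        have f1R : (n : ℝ) = g n * a n₀ := by rw [← h2]; exact_mod_cast f1
        rw [← add_div, div_le_iff₀ haR, lt_div_iff₀ haR, ← f1R]
        exact ⟨d1, d2⟩
      have k2 : ((U.image g).card : ℝ) ≤ (L' : ℝ) / b n₀ + 1 := by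
        apply card_le_len _ ((y : ℝ) / b n₀) _ (by positivity) (by positivity)
        intro v hv
        rw [mem_image] at hv
        obtain ⟨n, hn, rfl⟩ := hv
        obtain ⟨h1, h2, h3⟩ := hUf n hn
        obtain ⟨-, f1, f2, -, -, -, d1, d2, d3, d4⟩ := hfacts n h1
        have f2R : (N n : ℝ) = g n * b n₀ := by rw [← h3]; exact_mod_cast f2
        rw [← add_div, div_le_iff₀ hbR, lt_div_iff₀ hbR, ← f2R]
        exact ⟨d3, d4⟩
      rw [← hcard] at k1 k2
      have k3 : (U.card : ℝ) ≤ min ((L : ℝ) / a n₀) ((L' : ℝ) / b n₀) + 1 := by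
        rcases min_choice ((L : ℝ) / a n₀) ((L' : ℝ) / b n₀) with h | h <;> rw [h] <;> assumption
      have k4 : min ((L : ℝ) / a n₀) ((L' : ℝ) / b n₀) ≤ m := hmin n₀ hn₀T
      have k5 : min ((L : ℝ) / a n₀) ((L' : ℝ) / b n₀) ≤ r / 2 ^ i := by
        have hb2R : (2 : ℝ) ^ i ≤ b n₀ := by exact_mod_cast hb2
        rw [le_div_iff₀ (by positivity), hrdef]
        apply le_min
        · have h1 : (L' : ℝ) / b n₀ ≤ L' / 2 ^ i :=
            div_le_div_of_nonneg_left hLR' (by positivity) hb2R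
          rw [← le_div_iff₀ (by positivity)]
          exact (min_le_right _ _).trans h1
        · have h1 : (L : ℝ) / a n₀ ≤ (L * (y + L' : ℕ) / x) / 2 ^ i := by
            have e1R : (n₀ : ℝ) = g n₀ * a n₀ := by exact_mod_cast e1
            have e2R : (N n₀ : ℝ) = g n₀ * b n₀ := by exact_mod_cast e2
            have hgR : (0 : ℝ) < g n₀ := by exact_mod_cast hg0
            -- a * N = b * n
            have h2 : (a n₀ : ℝ) * N n₀ = b n₀ * n₀ := by rw [e1R, e2R]; ring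
            have h3 : (2 : ℝ) ^ i * x ≤ a n₀ * (y + L' : ℕ) := by
              push_cast
              calc (2 : ℝ) ^ i * x ≤ b n₀ * n₀ :=
                    mul_le_mul hb2R c1 (by positivity) (by positivity)
                _ = a n₀ * N n₀ := h2.symm
                _ ≤ a n₀ * (y + L') := mul_le_mul_of_nonneg_left c4.le haR.le
            rw [div_div, div_le_div_iff₀ haR (by positivity)]
            calc (L : ℝ) * (x * 2 ^ i) = L * (2 ^ i * x) := by ring
              _ ≤ L * (a n₀ * (y + L' : ℕ)) := mul_le_mul_of_nonneg_left h3 hLR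
              _ = L * (y + L' : ℕ) * a n₀ := by ring
          rw [← le_div_iff₀ (by positivity)]
          exact (min_le_left _ _).trans h1
      have k6 := le_min k4 k5
      linarith
    have hcard : (Ti.card : ℝ) ≤ ((Ti.image pr).card : ℝ) * (1 + min m (r / 2 ^ i)) := by
      have h1 := Finset.card_eq_sum_card_fiberwise (s := Ti) (t := Ti.image pr) (f := pr)
        (fun n hn => Finset.mem_image_of_mem pr hn)
      rw [h1]
      push_cast
      have h2 := Finset.sum_le_card_nsmul (Ti.image pr)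
        (fun f => (((Ti.filter (fun n => pr n = f)).card : ℕ) : ℝ)) (1 + min m (r / 2 ^ i)) hfib
      rw [nsmul_eq_mul] at h2
      exact h2
    have hmin0 : 0 ≤ min m (r / 2 ^ i) := le_min hm (by positivity)
    calc (Ti.card : ℝ) ≤ ((Ti.image pr).card : ℝ) * (1 + min m (r / 2 ^ i)) := hcard
      _ ≤ (1 + W * (4 : ℝ) ^ (i + 1)) * (1 + min m (r / 2 ^ i)) :=
          mul_le_mul_of_nonneg_right hF (by linarith)
      _ = (1 + min m (r / 2 ^ i)) + W * (4 : ℝ) ^ (i + 1) * (1 + min m (r / 2 ^ i)) := by ring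
      _ ≤ (1 + m) + W * (4 : ℝ) ^ (i + 1) * (1 + r / 2 ^ i) := by
          apply add_le_add
          · linarith [min_le_left m (r / 2 ^ i)]
          · apply mul_le_mul_of_nonneg_left _ (by positivity)
            linarith [min_le_right m (r / 2 ^ i)]
  have hsum := Finset.card_eq_sum_card_fiberwise (s := T) (t := range (I + 1))
    (f := fun n => Nat.log 2 (b n)) hlog
  have hsumR : (T.card : ℝ) = ∑ i ∈ range (I + 1),
      ((T.filter (fun n => Nat.log 2 (b n) = i)).card : ℝ) := by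
    rw [hsum]
    push_cast
    rfl
  rw [hsumR]
  refine (Finset.sum_le_sum hone).trans ?_
  have hgeo : ∀ J : ℕ, ∑ i ∈ range (J + 1), ((1 + m) + W * (4 : ℝ) ^ (i + 1) * (1 + r / 2 ^ i)) ≤
      (J + 1) * (1 + m) + 8 * W * ((4 : ℝ) ^ J + 2 ^ J * r) - 2 * W * r := by
    intro J
    induction J with
    | zero =>
      simp only [zero_add, range_one, sum_singleton, pow_zero, pow_one, Nat.cast_zero]
      nlinarith [mul_nonneg hW0 hr0]
    | succ J ih =>
      rw [Finset.sum_range_succ]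
      have e1 : W * (4 : ℝ) ^ (J + 1 + 1) * (1 + r / 2 ^ (J + 1)) =
          16 * W * 4 ^ J + 8 * W * (2 ^ J * r) := by
        have h4 : (4 : ℝ) ^ J = 2 ^ J * 2 ^ J := by rw [← mul_pow]; norm_num
        rw [pow_succ, pow_succ, pow_succ (2 : ℝ) J]
        have h2 : (2 : ℝ) ^ J ≠ 0 := by positivity
        rw [h4]
        field_simp
        ring
      rw [e1]
      have e2 : (4 : ℝ) ^ (J + 1) = 4 * 4 ^ J := by ring
      have e3 : (2 : ℝ) ^ (J + 1) = 2 * 2 ^ J := by ring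
      rw [e2, e3]
      push_cast
      nlinarith [mul_nonneg hW0 (show (0 : ℝ) ≤ 4 ^ J by positivity)]
  refine (hgeo I).trans ?_
  nlinarith [mul_nonneg hW0 hr0]

end Pool.Agent.W638.MO
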